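import Pool.Agent.Helper178.PalCF

/-!
There is a principal, translatable and product-closed rational cone, containing a non-empty
language, which does not contain every context-free language. The context-free language which is
missing is the linear language of marked palindromes.
-/

namespace Pool.Agent.Results.MP_ead56d_lc.ConjectureFails

open Pool.Agent.Helper178.Trans

/-- A family of languages: for every finite alphabet `X`, a set of languages over `X`. -/
abbrev Family := ∀ (X : Type) [Finite X], Set (Language X)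

/-- The image of the language `L` under the rational transduction `u ↦ g (h ⁻¹ (u) ∩ R)`, where
`h` and `g` are (extended to) morphisms of free monoids and `R` is a regular language. -/
def transduce {C X Y : Type} (h : C → List X) (g : C → List Y) (R : Language C)
    (L : Language X) : Language Y :=
  {v | ∃ w ∈ R, w.flatMap h ∈ L ∧ v = w.flatMap g}

/-- Rational cones: families closed under all rational transductions. -/
def IsCone (F : Family) : Prop :=
  ∀ (C X Y : Type) [Finite C] [Finite X] [Finite Y] (h : C → List X) (g : C → List Y)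
    (R : Language C), R.IsRegular → ∀ L ∈ F X, transduce h g R L ∈ F Y

/-- The least rational cone containing the language `L`. -/
def leastCone {X : Type} [Finite X] (L : Language X) : Family :=
  fun Y _ => {K | ∀ G : Family, IsCone G → L ∈ G X → K ∈ G Y}

/-- Principal families: the least rational cones containing one language. -/
def IsPrincipal (F : Family) : Prop :=
  ∃ (X : Type) (_ : Finite X) (L : Language X), F = leastCone L

/-- Translatable families: with `L` over `X` the family contains `{a ^ n f b ^ n : n ≥ 1, f ∈ L}`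
over `X` together with two further letters `a = inr false` and `b = inr true`. -/
def IsTranslatable (F : Family) : Prop :=
  ∀ (X : Type) [Finite X], ∀ L ∈ F X,
    {w : List (X ⊕ Bool) | ∃ n ≥ 1, ∃ f ∈ L, w = List.replicate n (Sum.inr false) ++
      f.map Sum.inl ++ List.replicate n (Sum.inr true)} ∈ F (X ⊕ Bool)

/-- Families closed under product. -/
def IsProductClosed (F : Family) : Prop :=
  ∀ (X : Type) [Finite X], ∀ L₁ ∈ F X, ∀ L₂ ∈ F X, L₁ * L₂ ∈ F X

/-- The cone of the languages that are images of `L0` under rational relations. -/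
def cone : Family := fun Y _ =>
  {K | ∃ r : List Sg → List Y → Prop, Rat r ∧ ∀ v, v ∈ K ↔ ∃ u ∈ L0, r u v}

theorem isCone_cone : IsCone cone := by
  intro C X Y _ _ _ h g R hR L hL
  obtain ⟨r, hr, hL⟩ := hL
  refine ⟨_, hr.comp (Rat.nivat h g hR), ?_⟩
  intro v
  constructor
  · rintro ⟨w, hw, hwL, rfl⟩
    obtain ⟨u, hu, hr⟩ := (hL _).mp hwL
    exact ⟨u, hu, _, hr, w, hw, rfl, rfl⟩
  · rintro ⟨u, hu, _, hr, w, hw, rfl, rfl⟩
    exact ⟨w, hw, (hL _).mpr ⟨u, hu, hr⟩, rfl⟩

theorem L0_mem_cone : L0 ∈ cone Sg := by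
  have h : Rat (fun u v : List Sg => v = u) := by
    refine (Rat.hom fun c : Sg => [c]).congr ?_
    intro u v
    have : u.flatMap (fun c : Sg => [c]) = u := by
      induction u with
      | nil => rfl
      | cons a u ih => rw [List.flatMap_cons, ih]; rfl
    rw [this]
  refine ⟨_, h, ?_⟩
  intro v
  constructor
  · intro hv
    exact ⟨v, hv, rfl⟩
  · rintro ⟨u, hu, rfl⟩
    exact hu

theorem isPrincipal_cone : IsPrincipal cone := by
  refine ⟨Sg, inferInstance, L0, ?_⟩
  funext Y hY
  apply Set.Subset.antisymm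
  · rintro K ⟨r, hr, hK⟩ G hG hL0
    obtain ⟨C, _, h, g, R, hR, hr⟩ := hr.exists_nivat
    have h1 : K = transduce h g R L0 := by
      ext v
      rw [hK]
      constructor
      · rintro ⟨u, hu, huv⟩
        obtain ⟨w, hw, rfl, rfl⟩ := (hr _ _).mp huv
        exact ⟨w, hw, hu, rfl⟩
      · rintro ⟨w, hw, hu, rfl⟩
        exact ⟨_, hu, (hr _ _).mpr ⟨w, hw, rfl, rfl⟩⟩
    rw [h1]
    exact hG C Sg Y h g R hR L0 hL0
  · intro K hK
    exact hK cone isCone_cone L0_mem_cone

theorem isTranslatable_cone : IsTranslatable cone := by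
  rintro X _ L ⟨r, hr, hL⟩
  obtain ⟨r', hr', h⟩ := trans_closure hr
  refine ⟨r', hr', ?_⟩
  intro v
  rw [h]
  constructor
  · rintro ⟨n, hn, f, hf, rfl⟩
    exact ⟨n, hn, f, (hL _).mp hf, by rw [List.append_assoc]⟩
  · rintro ⟨n, hn, f, hf, rfl⟩
    exact ⟨n, hn, f, (hL _).mpr hf, by rw [List.append_assoc]⟩

theorem isProductClosed_cone : IsProductClosed cone := by
  rintro X _ L₁ ⟨r₁, hr₁, hL₁⟩ L₂ ⟨r₂, hr₂, hL₂⟩
  obtain ⟨r, hr, h⟩ := prod_closure hr₁ hr₂
  refine ⟨r, hr, ?_⟩
  intro v
  rw [h, Language.mem_mul]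
  constructor
  · rintro ⟨a, ha, b, hb, rfl⟩
    exact ⟨a, b, (hL₁ _).mp ha, (hL₂ _).mp hb, rfl⟩
  · rintro ⟨a, b, ha, hb, rfl⟩
    exact ⟨a, (hL₁ _).mpr ha, b, (hL₂ _).mpr hb, rfl⟩

theorem pal_notMem_cone : Pal ∉ cone (Option Bool) := by
  rintro ⟨r, ⟨M, hM⟩, h⟩
  refine pal_not M fun v => ?_
  rw [h]
  constructor
  · rintro ⟨u, hu, huv⟩
    exact ⟨u, hu, (hM _ _).mp huv⟩
  · rintro ⟨u, hu, huv⟩
    exact ⟨u, hu, (hM _ _).mpr huv⟩

/-- There is a principal, translatable, product-closed rational cone which contains a non-empty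
language and does not contain every context-free language. -/
theorem result : ∃ F : Family, IsCone F ∧ IsPrincipal F ∧ IsTranslatable F ∧ IsProductClosed F ∧
    (∃ (X : Type) (_ : Finite X) (L : Language X), L ∈ F X ∧ ∃ w, w ∈ L) ∧
    ∃ (X : Type) (_ : Finite X) (L : Language X), L.IsContextFree ∧ L ∉ F X :=
  ⟨cone, isCone_cone, isPrincipal_cone, isTranslatable_cone, isProductClosed_cone,
    ⟨Sg, inferInstance, L0, L0_mem_cone, [], [], .leaf _ _ (by simp), rfl⟩,
    ⟨Option Bool, inferInstance, Pal, pal_contextFree, pal_notMem_cone⟩⟩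

end Pool.Agent.Results.MP_ead56d_lc.ConjectureFails
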